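import Pool.Agent.Q202.FA.Def
import Pool.Agent.Q202.LogReg.General

/-!
# The variety of associative algebras over a field is logically perfect and logically regular

For every field `P`, all free algebras `W(X)`, `X` finite, of the variety `Ass-P` of associative
`P`-algebras (without unit) are logically homogeneous and logically separable. The main point is
that for `|X| ≥ 2` a formula without parameters says that `z` belongs to the subalgebra generated
by `y_1, …, y_n` (`FDef.gen`, `gen_mem`, `gen_of_mem`): straight line programs are coded by a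
Gödel beta function with the moduli `1 + a^i h`.
-/

set_option autoImplicit false

namespace Pool.Agent.Results.MP_7ba13c_lc.PerfectRegular

open FirstOrder FirstOrder.Language
open Pool.Agent.Helper771.FreeNilp (AlgFn algLang)
open Pool.Agent.Q202.FA

universe u v w

/-- `W` with the elements `x i`, `i ∈ X`, is the free algebra `W(X)` of the variety `Ass-P` of
associative `P`-algebras. -/
def IsFree (P : Type u) [Field P] {X : Type w} (W : Type u) [NonUnitalRing W]
    [Module P W] [IsScalarTower P W W] [SMulCommClass P W W] (x : X → W) : Prop :=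
  ∀ (B : Type u) [NonUnitalRing B] [Module P B] [IsScalarTower P B B]
    [SMulCommClass P B B], ∀ y : X → B, ∃! f : W →ₙₐ[P] B, ∀ i, f (x i) = y i

/-- The first-order signature of `P`-algebras: `+`, `-`, `0`, `·` and one unary symbol for every
scalar. -/
abbrev lang (P : Type u) : FirstOrder.Language := algLang P

/-- The complete type `tp^H(a)` of a tuple `a` in `H`. -/
def tp (P : Type u) [Field P] {H : Type v} [NonUnitalRing H] [Module P H] {k : ℕ}
    (a : Fin k → H) : Set ((lang P).Formula (Fin k)) :=
  Set.ofPred fun φ => φ.Realize a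

/-- The set `S_k(H)` of the types of `k`-tuples realised in `H`. -/
def S (P : Type u) [Field P] (H : Type v) [NonUnitalRing H] [Module P H] (k : ℕ) :
    Set (Set ((lang P).Formula (Fin k))) :=
  Set.range fun a : Fin k → H => tp P a

/-- `H₁` and `H₂` are isotypic. -/
def Isotypic (P : Type u) [Field P] (H₁ : Type v) [NonUnitalRing H₁] [Module P H₁]
    (H₂ : Type w) [NonUnitalRing H₂] [Module P H₂] : Prop :=
  ∀ k : ℕ, 1 ≤ k → S P H₁ k = S P H₂ k

/-- `H` is logically separable: every associative `P`-algebra (in the universe `v`) isotypic to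
`H` is isomorphic to `H`. -/
def LogicallySeparable (P : Type u) [Field P] (H : Type u) [NonUnitalRing H]
    [Module P H] : Prop :=
  ∀ (H' : Type v) [NonUnitalRing H'] [Module P H'] [IsScalarTower P H' H']
    [SMulCommClass P H' H'], Isotypic P H H' → ∃ f : H →ₙₐ[P] H', Function.Bijective f

/-- `H` is logically homogeneous: two `k`-tuples have the same type iff some automorphism maps
one to the other. -/
def LogicallyHomogeneous (P : Type u) [Field P] (H : Type v) [NonUnitalRing H] [Module P H] :
    Prop :=
  ∀ (k : ℕ) (a b : Fin k → H), tp P a = tp P b ↔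
    ∃ σ : H →ₙₐ[P] H, Function.Bijective σ ∧ ∀ i, σ (a i) = b i

/-- `Ass-P` is logically regular: all `W(X)` with `X` finite are logically separable. -/
def LogicallyRegular (P : Type u) [Field P] : Prop :=
  ∀ (X : Type) [Finite X] (W : Type u) [NonUnitalRing W] [Module P W] [IsScalarTower P W W]
    [SMulCommClass P W W] (x : X → W), IsFree P W x → LogicallySeparable.{u, v} P W

/-- `Ass-P` is logically perfect: all `W(X)` with `X` finite are logically homogeneous. -/
def LogicallyPerfect (P : Type u) [Field P] : Prop :=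
  ∀ (X : Type) [Finite X] (W : Type u) [NonUnitalRing W] [Module P W] [IsScalarTower P W W]
    [SMulCommClass P W W] (x : X → W), IsFree P W x → LogicallyHomogeneous P W

/-! ### The free algebra and the augmentation ideal -/

section Free

variable {P : Type u} [Field P] {n : ℕ} {W : Type u} [NonUnitalRing W] [Module P W]
  [IsScalarTower P W W] [SMulCommClass P W W] {x : Fin n → W}

theorem IsFree.hom_ext (hx : IsFree P W x) {B : Type u} [NonUnitalRing B] [Module P B]
    [IsScalarTower P B B] [SMulCommClass P B B] {f g : W →ₙₐ[P] B}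
    (h : ∀ i, f (x i) = g (x i)) : f = g :=
  (hx B (fun i => g (x i))).unique h (fun _ => rfl)

theorem IsFree.exists_emb (hx : IsFree P W x) :
    ∃ e : W →ₙₐ[P] U P (Fin n), Emb e ∧ ∀ j, e (x j) = g P j := by
  obtain ⟨e, he, -⟩ := hx (U P (Fin n)) (fun j => g P j)
  refine ⟨e, ⟨?_, ?_, ?_⟩, he⟩
  · -- injectivity: the unitization of `W` is a quotient of the free algebra
    let ψ : U P (Fin n) →ₐ[P] Unitization P W :=
      FreeAlgebra.lift P (fun j => (x j : Unitization P W))
    have h1 : (NonUnitalAlgHomClass.toNonUnitalAlgHom ψ).comp e =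
        Unitization.inrNonUnitalAlgHom P W := by
      apply hx.hom_ext
      intro i
      change ψ (e (x i)) = (x i : Unitization P W)
      rw [he]
      simp [ψ]
    intro a b hab
    have h2 := fun c => DFunLike.congr_fun h1 c
    have h3 : ψ (e a) = (a : Unitization P W) := h2 a
    have h4 : ψ (e b) = (b : Unitization P W) := h2 b
    rw [hab, h4] at h3
    exact (Unitization.inr_injective h3).symm
  · intro a
    have h1 : (NonUnitalAlgHomClass.toNonUnitalAlgHom (ε : U P (Fin n) →ₐ[P] P)).comp e = 0 := by
      apply hx.hom_ext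
      intro i
      change ε (e (x i)) = 0
      rw [he, ε_g]
    exact DFunLike.congr_fun h1 a
  · have key : ∀ f : U P (Fin n), ∃ a, e a = f - algebraMap P _ (ε f) := by
      intro f
      induction f using FreeAlgebra.induction with
      | grade0 r => exact ⟨0, by rw [map_zero, ε_algebraMap, sub_self]⟩
      | grade1 j => exact ⟨x j, by rw [he, ε_g, map_zero, sub_zero]⟩
      | mul a b ha hb =>
        obtain ⟨a', ha2⟩ := ha
        obtain ⟨b', hb2⟩ := hb
        refine ⟨a' * b' + ε a • b' + ε b • a', ?_⟩
        rw [map_add, map_add, map_mul, map_smul, map_smul, ha2, hb2, map_mul, map_mul,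
          Algebra.smul_def, Algebra.smul_def, mul_sub, mul_sub, mul_sub, sub_mul, sub_mul,
          ← Algebra.commutes (ε b) a, ← Algebra.commutes (ε b) (algebraMap P (U P (Fin n)) (ε a))]
        abel
      | add a b ha hb =>
        obtain ⟨a', ha2⟩ := ha
        obtain ⟨b', hb2⟩ := hb
        refine ⟨a' + b', ?_⟩
        rw [map_add, ha2, hb2, map_add, map_add]
        abel
    intro f hf
    obtain ⟨a, ha⟩ := key f
    exact ⟨a, by rw [ha, hf, map_zero, sub_zero]⟩

theorem exists_term {m : ℕ} {H : Type v} [NonUnitalRing H] [Module P H] [IsScalarTower P H H]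
    [SMulCommClass P H H] {y : Fin m → H}
    (hy : NonUnitalAlgebra.adjoin P (Set.range y) = ⊤) (z : H) :
    ∃ t : (lang P).Term (Fin m), t.realize y = z := by
  have hz : z ∈ NonUnitalAlgebra.adjoin P (Set.range y) := by
    rw [hy]; trivial
  induction hz using NonUnitalAlgebra.adjoin_induction with
  | mem z hz =>
    obtain ⟨i, rfl⟩ := hz
    exact ⟨Language.Term.var i, rfl⟩
  | add a b _ _ ha hb =>
    obtain ⟨s, rfl⟩ := ha
    obtain ⟨t, rfl⟩ := hb
    exact ⟨Language.Term.func (l := 2) (AlgFn.add : AlgFn P 2) ![s, t], rfl⟩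
  | zero => exact ⟨Language.Term.func (l := 0) (AlgFn.zero : AlgFn P 0) ![], rfl⟩
  | mul a b _ _ ha hb =>
    obtain ⟨s, rfl⟩ := ha
    obtain ⟨t, rfl⟩ := hb
    exact ⟨Language.Term.func (l := 2) (AlgFn.mul : AlgFn P 2) ![s, t], rfl⟩
  | smul c a _ ha =>
    obtain ⟨s, rfl⟩ := ha
    exact ⟨Language.Term.func (l := 1) (AlgFn.smul c : AlgFn P 1) ![s], rfl⟩

/-- Free algebras of finite rank are logically homogeneous. -/
theorem IsFree.homogeneous (hx : IsFree P W x) {k : ℕ} (a b : Fin k → W)
    (h : ∀ φ : (lang P).Formula (Fin k), φ.Realize a ↔ φ.Realize b) :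
    ∃ σ : W →ₙₐ[P] W, Function.Bijective σ ∧ ∀ i, σ (a i) = b i := by
  obtain ⟨e, he, hex⟩ := hx.exists_emb
  have hgen := adjoin_eq_top he hex
  obtain ⟨B, ⟨β, hβ⟩, hBx, hB⟩ := exists_bas he hex
  choose t ht using fun i => exists_term hgen (a i)
  have hdef : FDef P (fun v : Fin k → W => ∃ y : Fin n → W, B y ∧ ∀ i, v i = (t i).realize y) := by
    refine FDef.exFun (P := fun v (y : Fin n → W) => B y ∧ ∀ i, v i = (t i).realize y) ?_
    refine FDef.and ?_ (FDef.allFin fun i => FDef.eq (TDef.var _) ?_)
    · refine ⟨β.relabel Sum.inr, fun v => ?_⟩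
      rw [Formula.realize_relabel, hβ]
      rfl
    · exact TDef.comap (K := P) (p := fun y : Fin n → W => (t i).realize y)
        ⟨t i, fun _ => rfl⟩ Sum.inr
  obtain ⟨ψ, hψ⟩ := hdef
  have h1 : ψ.Realize a := (hψ a).2 ⟨x, hBx, fun i => (ht i).symm⟩
  obtain ⟨y, hBy, hy⟩ := (hψ b).1 ((h ψ).1 h1)
  obtain ⟨σ, hσ, -⟩ := hx W y
  have hsurj : Function.Surjective σ := by
    intro z
    have hz : z ∈ NonUnitalAlgebra.adjoin P (Set.range y) := by
      rw [hB y hBy]; trivial
    have hle : NonUnitalAlgebra.adjoin P (Set.range y) ≤ NonUnitalAlgHom.range σ := by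
      refine NonUnitalAlgebra.adjoin_le ?_
      rintro _ ⟨j, rfl⟩
      exact ⟨x j, hσ j⟩
    exact hle hz
  refine ⟨σ, ⟨hopf he hex σ hsurj, hsurj⟩, fun i => ?_⟩
  rw [← ht i, Pool.Agent.Helper771.FreeNilp.map_realize, hy i]
  congr 1
  funext j
  exact hσ j

end Free

/-! ### Homomorphisms and first-order structures -/

section Equiv

variable {P : Type u} [Field P] {A : Type v} [NonUnitalRing A] [Module P A]
  {B : Type w} [NonUnitalRing B] [Module P B]

/-- a bijective homomorphism of algebras is an isomorphism of first-order structures -/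
noncomputable def toEquiv (f : A →ₙₐ[P] B) (hf : Function.Bijective f) : A ≃[lang P] B where
  toEquiv := _root_.Equiv.ofBijective f hf
  map_fun' := by
    intro n g v
    match n, g with
    | _, AlgFn.zero => exact map_zero f
    | _, AlgFn.add => exact map_add f (v 0) (v 1)
    | _, AlgFn.neg => exact map_neg f (v 0)
    | _, AlgFn.mul => exact map_mul f (v 0) (v 1)
    | _, AlgFn.smul c => exact map_smul f c (v 0)
  map_rel' := by intro n r; exact r.elim

theorem toEquiv_apply (f : A →ₙₐ[P] B) (hf : Function.Bijective f) (a : A) :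
    toEquiv f hf a = f a := rfl

/-- an isomorphism of first-order structures is an isomorphism of algebras -/
theorem exists_hom (e : A ≃[lang P] B) : ∃ f : A →ₙₐ[P] B, ∀ a, f a = e a := by
  refine ⟨{ toFun := e
            map_smul' := fun c a => e.map_fun (AlgFn.smul c : AlgFn P 1) ![a]
            map_zero' := e.map_fun (AlgFn.zero : AlgFn P 0) ![]
            map_add' := fun a b => e.map_fun (AlgFn.add : AlgFn P 2) ![a, b]
            map_mul' := fun a b => e.map_fun (AlgFn.mul : AlgFn P 2) ![a, b] }, fun a => rfl⟩

end Equiv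

theorem IsFree.comp {P : Type u} [Field P] {X : Type w} {W : Type u}
    [NonUnitalRing W] [Module P W] [IsScalarTower P W W] [SMulCommClass P W W] {x : X → W}
    (hx : IsFree P W x) {r : ℕ} (e : Fin r ≃ X) : IsFree P W (fun i => x (e i)) := by
  intro B _ _ _ _ y
  obtain ⟨f, hf, hu⟩ := hx B (fun i => y (e.symm i))
  refine ⟨f, fun i => ?_, fun g hg => hu g fun i => ?_⟩
  · have := hf (e i)
    simpa using this
  · have := hg (e.symm i)
    simpa using this

theorem perfect (P : Type u) [Field P] : LogicallyPerfect P := by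
  intro X _ W _ _ _ _ x hx k a b
  constructor
  · intro h
    obtain ⟨r, ⟨e⟩⟩ := Finite.exists_equiv_fin X
    exact (hx.comp e.symm).homogeneous a b (Q202.LogReg.realize_iff_of_tp h)
  · rintro ⟨σ, hσ, hab⟩
    ext φ
    change φ.Realize a ↔ φ.Realize b
    rw [← StrongHomClass.realize_formula (toEquiv σ hσ) φ]
    have : (⇑(toEquiv σ hσ) ∘ a) = b := by funext i; exact hab i
    rw [this]

theorem regular (P : Type u) [Field P] : LogicallyRegular.{u, v} P := by
  intro X _ W _ _ _ _ x hx H' _ _ _ _ hiso
  have hperf := perfect P X W x hx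
  obtain ⟨r, ⟨e⟩⟩ := Finite.exists_equiv_fin X
  obtain ⟨e', he, hex⟩ := (hx.comp e.symm).exists_emb
  have hgen := adjoin_eq_top he hex
  -- a generating tuple of positive length
  obtain ⟨k, hk, g, hg⟩ : ∃ (k : ℕ) (_ : 1 ≤ k) (g : Fin k → W),
      ∀ z : W, ∃ t : (lang P).Term (Fin k), t.realize g = z := by
    refine ⟨r + 1, by omega, Fin.snoc (fun i => x (e.symm i)) 0, fun z => ?_⟩
    obtain ⟨t, ht⟩ := exists_term hgen z
    refine ⟨t.relabel Fin.castSucc, ?_⟩
    rw [Term.realize_relabel, ← ht]
    congr 1
    funext i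
    simp
  obtain ⟨E⟩ := Q202.LogReg.exists_equiv (L := lang P) (W := W) (H := H') hk g hg (by
    intro a b hab
    obtain ⟨σ, hσ, hab'⟩ := (hperf k a b).1 (by
      ext φ
      exact hab φ)
    exact ⟨toEquiv σ hσ, hab'⟩) hiso
  obtain ⟨f, hf⟩ := exists_hom E
  refine ⟨f, ?_⟩
  have : (f : W → H') = E := funext hf
  rw [this]
  exact E.bijective

/-! ### The free algebras exist -/

/-- the augmentation ideal of the free unital algebra -/
noncomputable def augIdeal (P : Type u) [Field P] (X : Type) : NonUnitalSubalgebra P (U P X) where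
  carrier := Set.ofPred fun f => ε f = 0
  add_mem' := by
    intro a b ha hb
    rw [Set.mem_ofPred_eq] at *
    rw [map_add, ha, hb, add_zero]
  zero_mem' := map_zero ε
  mul_mem' := by
    intro a b ha hb
    rw [Set.mem_ofPred_eq] at *
    rw [map_mul, ha, zero_mul]
  smul_mem' := by
    intro c a ha
    rw [Set.mem_ofPred_eq] at *
    rw [map_smul, ha, smul_zero]

theorem exists_isFree (P : Type u) [Field P] (X : Type) [Finite X] :
    ∃ (W : Type u) (_ : NonUnitalRing W) (_ : Module P W)
      (_ : IsScalarTower P W W) (_ : SMulCommClass P W W) (x : X → W), IsFree P W x := by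
  classical
  have := Fintype.ofFinite X
  let e : augIdeal P X →ₙₐ[P] U P X := NonUnitalSubalgebraClass.subtype (augIdeal P X)
  have he : Emb e := ⟨Subtype.val_injective, fun a => a.2, fun f hf => ⟨⟨f, hf⟩, rfl⟩⟩
  let x : X → augIdeal P X := fun j => ⟨g P j, ε_g j⟩
  have hex : ∀ j, e (x j) = g P j := fun _ => rfl
  have hgen := adjoin_eq_top he hex
  refine ⟨augIdeal P X, inferInstance, inferInstance, inferInstance, inferInstance, x, ?_⟩
  intro B _ _ _ _ y
  let ψ : U P X →ₐ[P] Unitization P B := FreeAlgebra.lift P (fun j => (y j : Unitization P B))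
  have hψ : ∀ a : augIdeal P X, ∃ b : B, ψ (e a) = (b : Unitization P B) := by
    intro a
    have ha : a ∈ NonUnitalAlgebra.adjoin P (Set.range x) := by
      rw [hgen]; trivial
    induction ha using NonUnitalAlgebra.adjoin_induction with
    | mem z hz =>
      obtain ⟨j, rfl⟩ := hz
      exact ⟨y j, by rw [hex]; simp [ψ]⟩
    | zero => exact ⟨0, by rw [map_zero, map_zero, Unitization.inr_zero]⟩
    | add a b _ _ ha hb =>
      obtain ⟨a', ha'⟩ := ha
      obtain ⟨b', hb'⟩ := hb
      exact ⟨a' + b', by rw [map_add, map_add, ha', hb', Unitization.inr_add]⟩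
    | mul a b _ _ ha hb =>
      obtain ⟨a', ha'⟩ := ha
      obtain ⟨b', hb'⟩ := hb
      exact ⟨a' * b', by rw [map_mul, map_mul, ha', hb', Unitization.inr_mul]⟩
    | smul c z _ hz =>
      obtain ⟨z', hz'⟩ := hz
      exact ⟨c • z', by rw [map_smul, map_smul, hz', Unitization.inr_smul]⟩
  choose F hF using hψ
  refine ⟨{ toFun := F
            map_smul' := fun c a => ?_
            map_zero' := ?_
            map_add' := fun a b => ?_
            map_mul' := fun a b => ?_ }, fun i => ?_, ?_⟩
  · apply Unitization.inr_injective (R := P)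
    change _ = ((c • F a : B) : Unitization P B)
    rw [← hF, map_smul, map_smul, hF, Unitization.inr_smul]
  · apply Unitization.inr_injective (R := P)
    rw [← hF, map_zero, map_zero, Unitization.inr_zero]
  · apply Unitization.inr_injective (R := P)
    rw [← hF, map_add, map_add, hF, hF, Unitization.inr_add]
  · apply Unitization.inr_injective (R := P)
    rw [← hF, map_mul, map_mul, hF, hF, Unitization.inr_mul]
  · apply Unitization.inr_injective (R := P)
    change ((F (x i) : B) : Unitization P B) = _
    rw [← hF, hex]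
    simp [ψ]
  · intro f hf
    apply NonUnitalAlgHom.ext
    intro a
    change f a = F a
    have ha : a ∈ NonUnitalAlgebra.adjoin P (Set.range x) := by
      rw [hgen]; trivial
    apply Unitization.inr_injective (R := P)
    rw [← hF]
    induction ha using NonUnitalAlgebra.adjoin_induction with
    | mem z hz =>
      obtain ⟨j, rfl⟩ := hz
      rw [hf, hex]
      simp [ψ]
    | zero => rw [map_zero, map_zero, map_zero, Unitization.inr_zero]
    | add a b _ _ ha hb => rw [map_add, Unitization.inr_add, ha, hb, map_add, map_add]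
    | mul a b _ _ ha hb => rw [map_mul, Unitization.inr_mul, ha, hb, map_mul, map_mul]
    | smul c z _ hz => rw [map_smul, Unitization.inr_smul, hz, map_smul, map_smul]

/-- Complete answer to Q1 and Q2: for every field `P`, the variety `Ass-P` of the associative
`P`-algebras is logically perfect and logically regular. (The last clause says that the free
algebras `W(X)` exist, so that the first two are not vacuous.) -/
theorem result (P : Type u) [Field P] :
    LogicallyPerfect P ∧ LogicallyRegular.{u, v} P ∧
    ∀ (X : Type) [Finite X], ∃ (W : Type u) (_ : NonUnitalRing W) (_ : Module P W)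
      (_ : IsScalarTower P W W) (_ : SMulCommClass P W W) (x : X → W), IsFree P W x :=
  ⟨perfect P, regular P, fun X _ => exists_isFree P X⟩

end Pool.Agent.Results.MP_7ba13c_lc.PerfectRegular
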